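import Pool.Agent.Helper84.KR.Sel
import Pool.Agent.Helper94.SEL.St

/-! Row `NUMX` of `Helper94/SEL/St`: elementary properties of the numbers of a pair. -/

set_option autoImplicit false

namespace Pool.Agent.Helper84.SEL

open Finset Filter Topology Matrix Pool.Agent.Helper69.RK Pool.Agent.Helper31.EC Pool.Agent.Helper31.EC.Sp
open Pool.Agent.Helper40.EL Pool.Agent.Helper89.LX Pool.Agent.Helper3.LF Pool.Agent.Helper84.MT
open Pool.Agent.Helper84.KR
open Pool.Agent.Helper87.NSL (cndR KnS)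
open Pool.Agent.Helper29.MX (KZ volK volKO volKO_eq volP Rsl Pt)
open Pool.Agent.Helper7.RD (volCO volCO_mono volCO_le_M)
open Pool.Agent.Helper94.SEL (tot num NUMX)

noncomputable section

variable {S : Sp} {M : ℕ} {E : ℕ → ℕ} {ι : Type}

theorem ple_of_ev {A B : Part S} (h : ∀ᶠ k in UF, A k ≤ B k) : PLe A B := by
  unfold PLe
  exact Nul.of_le (Nul_zero S) (Eventually.of_forall fun k => h_nonneg _ _)
    (h.mono fun k hk => (h_zero hk).le)

/-- the exponents of `Helper94/SEL/St` are the exponents `An` -/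
theorem num_eq (s : MSys S M E ι) (R : Rsl S) {j : ℕ} (hj : j ≤ M) (c : ℝ) : num s R hj c = An s R j c := by
  rw [An_of s R hj]
  rfl

theorem tot_eq [Finite ι] (s : MSys S M E ι) (R : Rsl S) (c : ℝ) : tot s R c = An s R M c := by
  rw [An_top]
  rfl

/-- the conditions of a coarser resolution are below the conditions of a finer one -/
theorem cndR_res {s : MSys S M E ι} {R R' : Rsl S} (h : ∀ᶠ k in UF, (fc (R' k) : FL (S.F k)) ≤ fc (R k)) (c : ℝ)
    (i : Option ι) : PLe (cndR s R' c i) (cndR s R c i) := by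
  rcases i with _ | i
  · exact ple_of_ev h
  · exact PLe.refl _

/-- coarser resolutions have smaller exponents, all prefixes -/
theorem num_res [Finite ι] {s : MSys S M E ι} {R R' : Rsl S}
    (h : ∀ᶠ k in UF, (fc (R' k) : FL (S.F k)) ≤ fc (R k)) {j : ℕ} (hj : j ≤ M) (c : ℝ) :
    num s R' hj c ≤ num s R hj c := by
  have h1 := volCO_mono (C := KZ R') (C' := KZ R) (A := cndR s R' c) (A' := cndR s R c)
    (Q := Pool.Agent.Helper29.MX.pfx s.Q hj) (fun i => ⟨i, cndR_res h c i⟩) (fun l hl => LC.kz_mono h hl)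
  unfold num volP
  linarith

theorem tot_res [Finite ι] {s : MSys S M E ι} {R R' : Rsl S}
    (h : ∀ᶠ k in UF, (fc (R' k) : FL (S.F k)) ≤ fc (R k)) (c : ℝ) : tot s R' c ≤ tot s R c := by
  rw [tot_eq, tot_eq, ← num_eq s R' le_rfl, ← num_eq s R le_rfl]
  exact num_res h le_rfl c

/-- longer prefixes have larger exponents -/
theorem num_le [Finite ι] (s : MSys S M E ι) (R : Rsl S) {j j' : ℕ} (hjj : j ≤ j') (hj : j' ≤ M) (c : ℝ) :
    num s R (hjj.trans hj) c ≤ num s R hj c := by
  rw [num_eq, num_eq]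
  exact An_le s R hjj hj c

theorem num_le_tot [Finite ι] (s : MSys S M E ι) (R : Rsl S) {j : ℕ} (hj : j ≤ M) (c : ℝ) :
    num s R hj c ≤ tot s R c := by
  rw [num_eq, tot_eq]
  exact An_le s R hj le_rfl c

/-- stable pairs -/
theorem num_stab [Finite ι] {s : MSys S M E ι} {R : Rsl S} (hs : (M : ℝ) ≤ volKO s R 0) {j : ℕ} (hj : j ≤ M) :
    num s R hj 0 = 0 := by
  rw [num_eq]
  exact An_stab s R hs hj

theorem num_nonneg (s : MSys S M E ι) (R : Rsl S) {j : ℕ} (hj : j ≤ M) (c : ℝ) : 0 ≤ num s R hj c := by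
  rw [num_eq]
  exact An_nonneg s R j c

theorem num_mono [Finite ι] (s : MSys S M E ι) (R : Rsl S) {j : ℕ} (hj : j ≤ M) {c c' : ℝ} (h : c ≤ c') :
    num s R hj c ≤ num s R hj c' := by
  rw [num_eq, num_eq]
  exact An_mono s R j h

theorem tot_mono [Finite ι] (s : MSys S M E ι) (R : Rsl S) {c c' : ℝ} (h : c ≤ c') : tot s R c ≤ tot s R c' := by
  rw [tot_eq, tot_eq]
  exact An_mono s R M h

/-- the resolution as a partition -/
theorem fc_res {R R' : Rsl S} (h : ∀ᶠ k in UF, R k ≤ R' k) :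
    ∀ᶠ k in UF, (fc (R' k) : FL (S.F k)) ≤ fc (R k) := by
  filter_upwards [h] with k hk
  exact fc_le fun ω ω' _ _ _ h1 => hk h1

/-- ROW `NUMX` -/
theorem numx (M : ℕ) : NUMX M where
  mono := by
    intro S E r s R c c' _ hc _ j hj
    exact num_mono s R hj hc
  zero := by
    intro S E r s R c
    rw [num_eq]
    exact An_zero s R c
  last := by
    intro S E r s R c
    rw [num_eq, tot_eq]
  step := by
    intro S E r s R c hR h0 h1 j hj
    rw [num_eq, num_eq]
    exact An_step hR hj h0 h1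
  res := by
    intro S E r s R R' c h j hj
    exact num_res (fc_res h) hj c

end

end Pool.Agent.Helper84.SEL
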