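import Pool.Agent.Helper84.SEL.Numx
import Pool.Agent.Helper99.MX.Sws

/-! [INC] The exponents of the prefixes grow less than the exponents of longer prefixes, hence less than the total exponent;
[REAL] from rational windows to real windows. -/

set_option autoImplicit false

namespace Pool.Agent.Helper84.SEL

open Finset Filter Topology Matrix Pool.Agent.Helper69.RK Pool.Agent.Helper31.EC Pool.Agent.Helper31.EC.Sp
open Pool.Agent.Helper40.EL Pool.Agent.Helper89.LX Pool.Agent.Helper3.LF Pool.Agent.Helper84.MT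
open Pool.Agent.Helper84.KR
open Pool.Agent.Helper36.AM (STu)
open Pool.Agent.Helper87.NSL (cndR KnS)
open Pool.Agent.Helper29.MX (KZ KLb volK volKO volKO_eq volP Rsl Pt pfx)
open Pool.Agent.Helper7.RD (volCO volCO_mono volCO_le_M)
open Pool.Agent.Helper94.SEL (tot num Lip)
open Pool.Agent.Helper99.MX (swp_step pfx_full pfs)
open Pool.Agent.Helper18.PRM (vcrd)

noncomputable section

variable {S T : Sp} {N N' g g' : ℕ} {ι ι' : Type}

/-! ### increments -/

/-- one more coordinate -/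
theorem num_inc_one [Finite ι] (hst : ∀ m < N, STu m) {s : MSys S N (lin g) ι} {R : Rsl S} (hR : Pt s R) {c c' : ℝ}
    (h0 : 0 ≤ c) (hc : c ≤ c') (h1 : c' < 1) {j : ℕ} (hj : j < N) :
    num s R hj.le c' - num s R hj.le c ≤ num s R (Nat.succ_le_of_lt hj) c' - num s R (Nat.succ_le_of_lt hj) c := by
  have hinj : Function.Injective (fun i : Fin (j + 1) => Fin.castLE (Nat.succ_le_of_lt hj) i) :=
    Fin.castLE_injective _
  have e : ((fun i : Fin (j + 1) => Fin.castLE (Nat.succ_le_of_lt hj) i) ∘ (Fin.last j).succAbove) =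
      fun i : Fin j => Fin.castLE hj.le i := by
    funext i
    show Fin.castLE (Nat.succ_le_of_lt hj) ((Fin.last j).succAbove i) = _
    rw [Fin.succAbove_last]
    rfl
  have hR' : KnS R (vcrd (fun i : Fin (j + 1) => Fin.castLE (Nat.succ_le_of_lt hj) i) s.Q).v :=
    hR.mono fun k hk ω ω' a b z h => by
      funext i
      show s.Q.v k ω _ = s.Q.v k ω' _
      rw [hk ω ω' a b z h]
  have h2 := swp_step (C := KZ R) (A := cndR s R c') (A' := cndR s R c) (Q := s.Q)
    (fun i : Fin (j + 1) => Fin.castLE (Nat.succ_le_of_lt hj) i) hinj (Fin.last j) hR' (fun l hl => hl)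
    (fun i => ⟨i, cndR_le hc i⟩) (by
      rw [e]
      exact fun l h3 h4 => pfx_full hst hR h0 (lt_of_le_of_lt hc h1) hj ⟨h3, h4⟩)
  rw [e] at h2
  have h3 : volP s R c hj.le - volP s R c' hj.le ≤
      volP s R c (Nat.succ_le_of_lt hj) - volP s R c' (Nat.succ_le_of_lt hj) := h2
  unfold num
  linarith

/-- **[INC]** -/
theorem num_inc [Finite ι] (hst : ∀ m < N, STu m) {s : MSys S N (lin g) ι} {R : Rsl S} (hR : Pt s R) {c c' : ℝ}
    (h0 : 0 ≤ c) (hc : c ≤ c') (h1 : c' < 1) {j j' : ℕ} (hjj : j ≤ j') (hj' : j' ≤ N) :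
    num s R (hjj.trans hj') c' - num s R (hjj.trans hj') c ≤ num s R hj' c' - num s R hj' c := by
  have key : ∀ (n : ℕ) (hn : j + n ≤ N), num s R (Nat.le_of_add_right_le hn) c' - num s R (Nat.le_of_add_right_le hn) c ≤
      num s R hn c' - num s R hn c := by
    intro n
    induction n with
    | zero => intro _; exact le_rfl
    | succ n ih =>
      intro hn
      have hn' : j + n < N := by omega
      exact (ih hn'.le).trans (num_inc_one hst hR h0 hc h1 hn')
  obtain ⟨n, rfl⟩ := Nat.exists_eq_add_of_le hjj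
  exact key n hj'

/-- the exponents of the prefixes grow less than the total exponent -/
theorem num_inc_tot [Finite ι] (hst : ∀ m < N, STu m) {s : MSys S N (lin g) ι} {R : Rsl S} (hR : Pt s R) {c c' : ℝ}
    (h0 : 0 ≤ c) (hc : c ≤ c') (h1 : c' < 1) {j : ℕ} (hj : j ≤ N) :
    num s R hj c' - num s R hj c ≤ tot s R c' - tot s R c := by
  have h2 := num_inc hst hR h0 hc h1 hj le_rfl
  have e : ∀ c, num s R (le_refl N) c = tot s R c := fun c => by rw [num_eq, tot_eq]
  rw [e, e] at h2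
  exact h2

/-! ### rational windows -/

/-- increasing and Lipschitz at the rational numbers of `[0, l)`: Lipschitz on `[0, l)` -/
theorem lip_rat {f : ℝ → ℝ} {l La : ℝ} (hmono : ∀ c c', 0 ≤ c → c ≤ c' → f c ≤ f c')
    (h : ∀ q q' : ℚ, (0 : ℝ) ≤ q → (q : ℝ) ≤ q' → (q' : ℝ) < l → f q' - f q ≤ La * (q' - q)) {c c' : ℝ} (h0 : 0 ≤ c)
    (hc : c ≤ c') (hl : c' < l) : f c' - f c ≤ La * (c' - c) := by
  have key : ∀ δ : ℝ, 0 < δ → c' + δ < l → f c' - f c ≤ |La| * (2 * δ) + La * (c' - c) := by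
    intro δ hδ hδl
    obtain ⟨q', hq1, hq2⟩ := exists_rat_btwn (show c' < c' + δ by linarith)
    have hq : ∃ q : ℚ, (0 : ℝ) ≤ q ∧ (q : ℝ) ≤ c ∧ c - δ ≤ q := by
      rcases h0.eq_or_lt with h0 | h0
      · refine ⟨0, by simp, ?_, ?_⟩
        · rw [← h0]; simp
        · rw [← h0]; push_cast; linarith
      · obtain ⟨q, a1, a2⟩ := exists_rat_btwn (show max 0 (c - δ) < c from max_lt h0 (by linarith))
        exact ⟨q, (le_max_left _ _).trans a1.le, a2.le, (le_max_right _ _).trans a1.le⟩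
    obtain ⟨q, b0, b1, b2⟩ := hq
    have h1 := h q q' b0 (b1.trans (hc.trans hq1.le)) (hq2.trans hδl)
    have h2 := hmono q c b0 b1
    have h3 := hmono c' q' (h0.trans hc) hq1.le
    have h4 : La * ((q' : ℝ) - q) ≤ |La| * (2 * δ) + La * (c' - c) := by
      have h5 : La * ((q' : ℝ) - q - (c' - c)) ≤ |La| * (2 * δ) := by
        have h6 : 0 ≤ (q' : ℝ) - q - (c' - c) := by linarith
        have h7 : (q' : ℝ) - q - (c' - c) ≤ 2 * δ := by linarith
        calc La * ((q' : ℝ) - q - (c' - c)) ≤ |La| * ((q' : ℝ) - q - (c' - c)) :=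
              mul_le_mul_of_nonneg_right (le_abs_self _) h6
          _ ≤ |La| * (2 * δ) := mul_le_mul_of_nonneg_left h7 (abs_nonneg _)
      linarith
    linarith
  apply le_of_forall_pos_le_add
  intro ε hε
  have hp : 0 < |La| * 2 + 1 := by positivity
  set δ := min ((l - c') / 2) (ε / (|La| * 2 + 1)) with hδ
  have hδ0 : 0 < δ := lt_min (by linarith) (div_pos hε hp)
  have h1 := key δ hδ0 (by
    have := min_le_left ((l - c') / 2) (ε / (|La| * 2 + 1))
    linarith)
  have h2 : |La| * (2 * δ) ≤ ε := by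
    have h3 : δ ≤ ε / (|La| * 2 + 1) := min_le_right _ _
    have h4 : (|La| * 2 + 1) * δ ≤ ε := by
      rw [le_div_iff₀ hp] at h3
      linarith
    nlinarith [abs_nonneg La]
  linarith

/-- two increasing Lipschitz functions which agree at the rational numbers of `[0, l)` agree on `[0, l)` -/
theorem eq_rat {f f' : ℝ → ℝ} {l La : ℝ} (hm : ∀ c c', 0 ≤ c → c ≤ c' → f c ≤ f c')
    (hm' : ∀ c c', 0 ≤ c → c ≤ c' → f' c ≤ f' c')
    (hf : ∀ c c', 0 ≤ c → c ≤ c' → c' < l → f c' - f c ≤ La * (c' - c))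
    (hf' : ∀ c c', 0 ≤ c → c ≤ c' → c' < l → f' c' - f' c ≤ La * (c' - c))
    (h : ∀ q : ℚ, (0 : ℝ) ≤ q → (q : ℝ) < l → f q = f' q) {c : ℝ} (h0 : 0 ≤ c) (hl : c < l) : f c = f' c := by
  have key : ∀ (f f' : ℝ → ℝ) (_ : ∀ c c', 0 ≤ c → c ≤ c' → f c ≤ f c')
      (_ : ∀ c c', 0 ≤ c → c ≤ c' → c' < l → f' c' - f' c ≤ La * (c' - c))
      (_ : ∀ q : ℚ, (0 : ℝ) ≤ q → (q : ℝ) < l → f q = f' q), f c ≤ f' c := by
    intro f f' hm hf' h
    apply le_of_forall_pos_le_add
    intro ε hε
    have hp : 0 < |La| + 1 := by positivity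
    have hδ0 : 0 < min (l - c) (ε / (|La| + 1)) := lt_min (by linarith) (div_pos hε hp)
    obtain ⟨q, h1, h2⟩ := exists_rat_btwn (show c < c + min (l - c) (ε / (|La| + 1)) by linarith)
    have h3 : (q : ℝ) < l := by
      have := min_le_left (l - c) (ε / (|La| + 1))
      linarith
    have h4 : (q : ℝ) - c ≤ ε / (|La| + 1) := by
      have := min_le_right (l - c) (ε / (|La| + 1))
      linarith
    have h5 := hf' c q h0 h1.le h3
    have h6 := hm c q h0 h1.le
    have h7 := h q (h0.trans h1.le) h3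
    have h8 : La * ((q : ℝ) - c) ≤ ε := by
      have h9 : (|La| + 1) * ((q : ℝ) - c) ≤ ε := by
        rw [le_div_iff₀ hp] at h4
        linarith
      have h10 : La * ((q : ℝ) - c) ≤ |La| * ((q : ℝ) - c) :=
        mul_le_mul_of_nonneg_right (le_abs_self _) (by linarith)
      nlinarith
    linarith
  exact le_antisymm (key f f' hm hf' h) (key f' f hm' hf fun q a b => (h q a b).symm)

/-! ### [REAL] -/

section real
variable [Finite ι] {s : MSys S N (lin g) ι} {R : Rsl S}

/-- the total exponent is Lipschitz on the real windows if it is on the rational windows -/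
theorem tot_lip_rat {l La : ℝ}
    (h : ∀ q q' : ℚ, (0 : ℝ) ≤ q → (q : ℝ) ≤ q' → (q' : ℝ) < l → tot s R q' - tot s R q ≤ La * (q' - q)) {c c' : ℝ}
    (h0 : 0 ≤ c) (hc : c ≤ c') (hl : c' < l) : tot s R c' - tot s R c ≤ La * (c' - c) :=
  lip_rat (fun _ _ _ hc => tot_mono s R hc) h h0 hc hl

/-- the same as the predicate `Lip` -/
theorem Lip_rat {l La : ℝ}
    (h : ∀ q q' : ℚ, (0 : ℝ) ≤ q → (q : ℝ) ≤ q' → (q' : ℝ) < l → tot s R q' - tot s R q ≤ La * (q' - q)) :
    Lip l La 0 s R := by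
  intro c c' h0 hc hl
  rw [add_zero]
  exact tot_lip_rat h h0 hc hl

/-- all exponents are Lipschitz if the total exponent is -/
theorem num_lip (hst : ∀ m < N, STu m) (hR : Pt s R) {l La : ℝ} (hl1 : l ≤ 1) (h : Lip l La 0 s R) {j : ℕ} (hj : j ≤ N)
    {c c' : ℝ} (h0 : 0 ≤ c) (hc : c ≤ c') (hl : c' < l) : num s R hj c' - num s R hj c ≤ La * (c' - c) := by
  have h1 := num_inc_tot hst hR h0 hc (hl.trans_le hl1) hj
  have h2 := h c c' h0 hc hl
  linarith

/-- **[REAL]**: exponents which agree on the rational windows agree on the real windows -/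
theorem num_real [Finite ι'] (hst : ∀ m < N, STu m) (hR : Pt s R) {t : MSys T N (lin g') ι'} {R' : Rsl T} (hR' : Pt t R')
    {l La : ℝ} (hl1 : l ≤ 1) (h : Lip l La 0 s R) (h' : Lip l La 0 t R') {j : ℕ} (hj : j ≤ N)
    (hq : ∀ q : ℚ, (0 : ℝ) ≤ q → (q : ℝ) < l → num t R' hj q = num s R hj q) {c : ℝ} (h0 : 0 ≤ c) (hc : c < l) :
    num t R' hj c = num s R hj c :=
  eq_rat (f := fun c => num t R' hj c) (f' := fun c => num s R hj c) (fun _ _ _ a => num_mono t R' hj a)
    (fun _ _ _ a => num_mono s R hj a) (fun _ _ a b d => num_lip hst hR' hl1 h' hj a b d)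
    (fun _ _ a b d => num_lip hst hR hl1 h hj a b d) hq h0 hc

/-- the total exponent agrees on the real windows if it agrees on the rational windows (no structure theorem) -/
theorem tot_real [Finite ι'] {t : MSys T N' (lin g') ι'} {R' : Rsl T} {l La : ℝ} (h : Lip l La 0 s R)
    (h' : Lip l La 0 t R') (hq : ∀ q : ℚ, (0 : ℝ) ≤ q → (q : ℝ) < l → tot t R' q = tot s R q) {c : ℝ} (h0 : 0 ≤ c)
    (hc : c < l) : tot t R' c = tot s R c :=
  eq_rat (f := fun c => tot t R' c) (f' := fun c => tot s R c) (fun _ _ _ a => tot_mono t R' a)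
    (fun _ _ _ a => tot_mono s R a) (fun c c' a b d => by simpa using h' c c' a b d)
    (fun c c' a b d => by simpa using h c c' a b d) hq h0 hc

/-- the exponents of the prefixes are equal to given Lipschitz functions on the real windows, if they are on the rational
windows -/
theorem num_real_fun (hst : ∀ m < N, STu m) (hR : Pt s R) {l La : ℝ} (hl1 : l ≤ 1) (h : Lip l La 0 s R) {j : ℕ}
    (hj : j ≤ N) {α : ℝ → ℝ} (hm : ∀ c c', 0 ≤ c → c ≤ c' → α c ≤ α c')
    (hα : ∀ c c', 0 ≤ c → c ≤ c' → c' < l → α c' - α c ≤ La * (c' - c))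
    (hq : ∀ q : ℚ, (0 : ℝ) ≤ q → (q : ℝ) < l → num s R hj q = α q) {c : ℝ} (h0 : 0 ≤ c) (hc : c < l) :
    num s R hj c = α c :=
  eq_rat (f := fun c => num s R hj c) (f' := α) (fun _ _ _ a => num_mono s R hj a) hm
    (fun _ _ a b d => num_lip hst hR hl1 h hj a b d) hα hq h0 hc

end real

end

end Pool.Agent.Helper84.SEL
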